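import Pool.Agent.H16.TO.Targets

/-!
# The closure of a formula
-/

set_option autoImplicit false

namespace Pool.Agent.H67.TW

open Pool.Agent.H16.TO

theorem one_le_ncard_iff (n : ℕ) (p : ℕ → Prop) :
    1 ≤ {a | a < n ∧ p a}.ncard ↔ ∃ a, a < n ∧ p a := by
  have hfin : {a | a < n ∧ p a}.Finite := (Set.finite_lt_nat n).subset fun a ha => ha.1
  have h := Set.ncard_pos hfin
  constructor
  · intro h1
    exact h.1 h1
  · intro h1
    exact h.2 h1

theorem pf_cl : T_CL := by
  intro φ n hn P R
  have key : ∀ s : Bool → ℕ, (φ.clo.SatN n P R s ↔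
      ∀ b < n, ∀ c < n, φ.SatN n P R (fun w => if w then c else b)) := by
    intro s
    have h0 : φ.clo.SatN n P R s ↔ ¬ 1 ≤ {b | b < n ∧ 1 ≤ {c | c < n ∧ ¬ φ.SatN n P R
        (Function.update (Function.update s false b) true c)}.ncard}.ncard := Iff.rfl
    rw [h0, one_le_ncard_iff]
    have h1 : ∀ b c : ℕ, Function.update (Function.update s false b) true c =
        (fun w => if w then c else b) := by
      intro b c
      funext w
      cases w <;> simp [Function.update]
    constructor
    · intro h b hb c hc
      by_contra hcon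
      refine h ⟨b, hb, (one_le_ncard_iff n _).2 ⟨c, hc, ?_⟩⟩
      rw [h1]
      exact hcon
    · rintro h ⟨b, hb, h2⟩
      obtain ⟨c, hc, h3⟩ := (one_le_ncard_iff n _).1 h2
      rw [h1] at h3
      exact h3 (h b hb c hc)
  constructor
  · intro h a _
    rw [key]
    intro b hb c hc
    refine h _ fun w => ?_
    cases w <;> simp [hb, hc]
  · intro h s hs
    have h1 := (key _).1 (h 0 hn) (s false) (hs false) (s true) (hs true)
    have h2 : (fun w => if w then s true else s false : Bool → ℕ) = s := by
      funext w
      cases w <;> simp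
    rwa [h2] at h1

end Pool.Agent.H67.TW
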