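import Pool.Agent.H16.TO.Targets

/-!
# Counting with labels and types
-/

set_option autoImplicit false

namespace Pool.Agent.H67.TW

open Pool.Agent.H16.TO Finset

theorem cap_sum_iff {ι κ : Type} (s : Finset ι) (t : Finset κ) (x : ι → ℕ) (y : κ → ℕ) (D K k : ℕ)
    (hk : k ≤ K) :
    (k ≤ ∑ p ∈ s, x p + D + ∑ p ∈ t, y p ↔
      k ≤ ∑ p ∈ s, min K (x p) + D + ∑ p ∈ t, min K (y p)) := by
  constructor
  · intro h
    by_cases h1 : ∃ p ∈ s, K ≤ x p
    · obtain ⟨p, hp, h2⟩ := h1
      have h3 : min K (x p) ≤ ∑ p ∈ s, min K (x p) :=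
        single_le_sum (f := fun p => min K (x p)) (fun _ _ => Nat.zero_le _) hp
      rw [min_eq_left h2] at h3
      omega
    · by_cases h2 : ∃ p ∈ t, K ≤ y p
      · obtain ⟨p, hp, h3⟩ := h2
        have h4 : min K (y p) ≤ ∑ p ∈ t, min K (y p) :=
          single_le_sum (f := fun p => min K (y p)) (fun _ _ => Nat.zero_le _) hp
        rw [min_eq_left h3] at h4
        omega
      · push Not at h1 h2
        have h3 : ∑ p ∈ s, min K (x p) = ∑ p ∈ s, x p :=
          sum_congr rfl fun p hp => min_eq_right (h1 p hp).le
        have h4 : ∑ p ∈ t, min K (y p) = ∑ p ∈ t, y p :=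
          sum_congr rfl fun p hp => min_eq_right (h2 p hp).le
        rw [h3, h4]
        exact h
  · intro h
    have h3 : ∑ p ∈ s, min K (x p) ≤ ∑ p ∈ s, x p := sum_le_sum fun p _ => min_le_right _ _
    have h4 : ∑ p ∈ t, min K (y p) ≤ ∑ p ∈ t, y p := sum_le_sum fun p _ => min_le_right _ _
    omega

theorem pf_ct : T_CT := by
  intro Λ Θ _ _ _ _ K lam th n a han F FL FR _ _ D _ hL hD hR k hk
  classical
  have hset : {b | b < n ∧ F b} = (((range n).filter F : Finset ℕ) : Set ℕ) := by
    ext b
    simp
  rw [hset, Set.ncard_coe_finset]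
  -- the left part
  have hLc : ((range a).filter F).card = ∑ p with FL p, Lc lam th a p := by
    rw [card_eq_sum_card_fiberwise (f := fun b => (lam b, th b a)) (t := univ.filter FL)]
    · refine sum_congr rfl fun p hp => ?_
      rw [mem_filter] at hp
      unfold Lc
      congr 1
      ext b
      simp only [mem_filter, mem_range]
      constructor
      · rintro ⟨⟨h1, _⟩, h3⟩
        rw [← h3]
        exact ⟨h1, rfl, rfl⟩
      · rintro ⟨h1, h2, h3⟩
        have h4 : (lam b, th b a) = p := Prod.ext h2 h3
        refine ⟨⟨h1, (hL b h1).2 ?_⟩, h4⟩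
        rw [h4]
        exact hp.2
    · intro b hb
      rw [mem_coe, mem_filter, mem_range] at hb
      rw [mem_coe, mem_filter]
      exact ⟨mem_univ _, (hL b hb.1).1 hb.2⟩
  have hRc : ((Ico (a + 1) n).filter F).card = ∑ p with FR p, Rc lam th a n p := by
    rw [card_eq_sum_card_fiberwise (f := fun b => (lam b, th a b)) (t := univ.filter FR)]
    · refine sum_congr rfl fun p hp => ?_
      rw [mem_filter] at hp
      unfold Rc
      congr 1
      ext b
      simp only [mem_filter, mem_Ico]
      constructor
      · rintro ⟨⟨h1, _⟩, h3⟩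
        rw [← h3]
        exact ⟨h1, rfl, rfl⟩
      · rintro ⟨h1, h2, h3⟩
        have h4 : (lam b, th a b) = p := Prod.ext h2 h3
        refine ⟨⟨h1, (hR b (by omega) h1.2).2 ?_⟩, h4⟩
        rw [h4]
        exact hp.2
    · intro b hb
      rw [mem_coe, mem_filter, mem_Ico] at hb
      rw [mem_coe, mem_filter]
      exact ⟨mem_univ _, (hR b (by omega) hb.1.2).1 hb.2⟩
  have hdec : ((range n).filter F).card = ((range a).filter F).card + (if D then 1 else 0) +
      ((Ico (a + 1) n).filter F).card := by
    have h1 : range n = (range a ∪ {a}) ∪ Ico (a + 1) n := by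
      ext b
      simp only [mem_range, mem_union, mem_singleton, mem_Ico]
      omega
    rw [h1, filter_union, filter_union, card_union_of_disjoint, card_union_of_disjoint]
    · congr 2
      rw [filter_singleton]
      by_cases hF : D
      · rw [if_pos hF, if_pos (hD.2 hF), card_singleton]
      · rw [if_neg hF, if_neg fun h => hF (hD.1 h), card_empty]
    · refine disjoint_filter_filter ?_
      rw [disjoint_singleton_right, mem_range]
      omega
    · rw [← filter_union]
      refine disjoint_filter_filter ?_
      rw [disjoint_left]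
      intro b hb hb'
      simp only [mem_union, mem_range, mem_singleton] at hb
      rw [mem_Ico] at hb'
      omega
  rw [hdec, hLc, hRc]
  exact cap_sum_iff _ _ _ _ _ K k hk

end Pool.Agent.H67.TW
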