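import Pool.Agent.H16.TO.Targets

/-!
# Truth bits for the counting subformulas
-/

set_option autoImplicit false

namespace Pool.Agent.H67.TW

open Pool.Agent.H16.TO

theorem upd_bool (s : Bool → ℕ) (v : Bool) (b : ℕ) :
    Function.update s v b = fun x => if x = v then b else s (!v) := by
  funext x
  by_cases hx : x = v
  · subst hx
    simp
  · have h1 : x = !v := by
      cases x <;> cases v <;> simp_all
    subst h1
    simp [Function.update]

theorem pf_ev : T_EV := by
  intro φ
  induction φ with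
  | un i v => intro n P R g _ s _; exact Iff.rfl
  | bi i v w => intro n P R g _ s _; exact Iff.rfl
  | eq v w => intro n P R g _ s _; exact Iff.rfl
  | neg φ ih =>
    intro n P R g hg s hs
    have h1 := ih n P R g hg s hs
    exact not_congr h1
  | and φ ψ ihφ ihψ =>
    intro n P R g hg s hs
    exact and_congr (ihφ n P R (fun a => (g a).1) hg.1 s hs) (ihψ n P R (fun a => (g a).2) hg.2 s hs)
  | cnt k v φ ih =>
    intro n P R g hg s hs
    have h1 := hg.2 (s (!v)) (hs _)
    have h2 : {a | a < n ∧ φ.SatN n P R (Function.update s v a)} =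
        {b | b < n ∧ φ.evA P R (fun c => (g c).2) (fun x => if x = v then b else s (!v))} := by
      ext b
      constructor
      · rintro ⟨hb, h3⟩
        refine ⟨hb, ?_⟩
        rw [upd_bool] at h3
        refine (ih n P R (fun c => (g c).2) hg.1 _ fun w => ?_).1 h3
        by_cases hw : w = v
        · simp [hw, hb]
        · simp [hw, hs]
      · rintro ⟨hb, h3⟩
        refine ⟨hb, ?_⟩
        rw [upd_bool]
        refine (ih n P R (fun c => (g c).2) hg.1 _ fun w => ?_).2 h3
        by_cases hw : w = v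
        · simp [hw, hb]
        · simp [hw, hs]
    have h3 : (C2.cnt k v φ).SatN n P R s ↔
        k ≤ {a | a < n ∧ φ.SatN n P R (Function.update s v a)}.ncard := Iff.rfl
    rw [h3, h2]
    exact h1.symm

theorem pf_ge : T_GE := by
  intro φ
  induction φ with
  | un i v => intro n P R; exact ⟨fun _ => (), trivial⟩
  | bi i v w => intro n P R; exact ⟨fun _ => (), trivial⟩
  | eq v w => intro n P R; exact ⟨fun _ => (), trivial⟩
  | neg φ ih =>
    intro n P R
    obtain ⟨g, hg⟩ := ih n P R
    exact ⟨g, hg⟩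
  | and φ ψ ihφ ihψ =>
    intro n P R
    obtain ⟨g, hg⟩ := ihφ n P R
    obtain ⟨g', hg'⟩ := ihψ n P R
    exact ⟨fun a => (g a, g' a), hg, hg'⟩
  | cnt k v φ ih =>
    intro n P R
    classical
    obtain ⟨g, hg⟩ := ih n P R
    refine ⟨fun a => (decide (k ≤ {b | b < n ∧
      φ.evA P R g (fun x => if x = v then b else a)}.ncard), g a), hg, ?_⟩
    intro a _
    exact decide_eq_true_iff

theorem pf_bf : T_BF := by
  intro φ
  induction φ with
  | un i v => exact ⟨inferInstanceAs (Finite Unit), ⟨()⟩⟩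
  | bi i v w => exact ⟨inferInstanceAs (Finite Unit), ⟨()⟩⟩
  | eq v w => exact ⟨inferInstanceAs (Finite Unit), ⟨()⟩⟩
  | neg φ ih => exact ih
  | and φ ψ ihφ ihψ =>
    obtain ⟨h1, ⟨x⟩⟩ := ihφ
    obtain ⟨h2, ⟨y⟩⟩ := ihψ
    exact ⟨inferInstanceAs (Finite (φ.Bt × ψ.Bt)), ⟨((x, y) : φ.Bt × ψ.Bt)⟩⟩
  | cnt k v φ ih =>
    obtain ⟨h1, ⟨x⟩⟩ := ih
    exact ⟨inferInstanceAs (Finite (Bool × φ.Bt)), ⟨((true, x) : Bool × φ.Bt)⟩⟩

end Pool.Agent.H67.TW
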